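import Mathlib
import Pool.Agent.Lib.H97Z.Main

/-!
Full answer (yes) to Q1 of MP_d69851_co: for every `n` there is a 3-neighborly normal
3-pseudomanifold with more than `n` vertices; more precisely there is one with exactly `2 ^ r`
vertices for every `r ≥ 3`.

The construction (details in `Pool/Agent/Lib/H97Z`).  A doubling `V ↦ V × {0, 1}`.  The vertices
carry two hues.  Regular tetrahedra have three vertices of one hue; special tetrahedra
`{x, y | z, w}` have two vertices of each hue and two distinguished opposite edges `xy`, `zw` of
mixed hue, each with a bit `p`, `q`.  A regular tetrahedron is replaced by the eight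
`{x_i, y_j, z_k, w_l}` with `i + j + k + l = s`, where `s` depends on the tetrahedron; a special one
by the regular tetrahedra `{z_0, z_1, x_i, y_(i+p)}`, `{w_0, w_1, x_i, y_(i+p)}`,
`{x_0, x_1, z_i, w_(i+q)}`, `{y_0, y_1, z_i, w_(i+q)}` and the special ones
`{x_i, y_(i+p+1) | z_k, w_(k+q+1)}`; over the edges `xu` of a 2-factor of mixed edges (the edges
which are not a distinguished edge of two special tetrahedra) there is one more special tetrahedron
`{x_0, x_1, u_0, u_1}`.  The links of the edges stay connected if and only if the bits `s` solve a
system of linear equations over the field with two elements; the system is solvable because its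
dual system has only the obvious solutions, and this property is inherited.  The start of the
induction is an explicit complex with 16 vertices.
-/

namespace Pool.Agent.Results.MP_d69851_co.ArbitrarilyLarge

open H37M

theorem result :
    (∀ n : ℕ, ∃ m : ℕ, n < m ∧ Exists3Nbly m) ∧ ∀ r : ℕ, 3 ≤ r → Exists3Nbly (2 ^ r) := by
  refine ⟨?_, fun r hr => Pool.Agent.Lib.H97Z.exists_pow hr⟩
  intro n
  refine ⟨2 ^ (n + 3), ?_, Pool.Agent.Lib.H97Z.exists_pow (by omega)⟩
  exact lt_of_le_of_lt (by omega : n ≤ n + 3) Nat.lt_two_pow_self

end Pool.Agent.Results.MP_d69851_co.ArbitrarilyLarge
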